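import Pool.Agent.helper65.GF.SpecG

/-!
Row YPA of the project on Goodman's inequality for Bazilevic functions of type 1/2 (MP_ea335c_an):
the basis `psh v Φ` of the space of the products `√g h`.
-/

set_option autoImplicit false

namespace Pool.Agent.GD

open Finset Metric Filter Topology

lemma YPA_cmb (v : ℕ → ℂ) (p : ℕ) (Φ : ℕ → ℕ → ℂ) (c : ℕ → ℂ) (n : ℕ) :
    cmbh p (psh v Φ) c n = cv v (fun r => ∑ m ∈ range (p + 1), c m * one0 Φ m r) n := by
  unfold cmbh psh cv
  simp only [Finset.mul_sum]
  rw [Finset.sum_comm]
  refine Finset.sum_congr rfl fun m _ => ?_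
  refine Finset.sum_congr rfl fun r _ => by ring

theorem YPA : YPA_stmt := by
  intro p v Φ hG hv
  refine ⟨?_, ?_, fun c n => YPA_cmb v p Φ c n, ?_⟩
  · intro m n h
    unfold psh cv
    refine Finset.sum_eq_zero fun r hr => ?_
    have hr' := mem_range.1 hr
    have : one0 Φ m r = 0 := by
      unfold one0
      rw [if_neg (by omega)]
      exact hG.low m r (by omega)
    rw [this, mul_zero]
  · intro m
    unfold psh cv
    rw [Finset.sum_range_succ, Finset.sum_eq_zero, zero_add, Nat.sub_self, hv, one_mul]
    · unfold one0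
      by_cases hq : m = 0
      · subst hq
        simp
      · rw [if_neg hq]
        exact hG.diag m
    · intro r hr
      have hr' := mem_range.1 hr
      have : one0 Φ m r = 0 := by
        unfold one0
        rw [if_neg (by omega)]
        exact hG.low m r hr'
      rw [this, mul_zero]
  · intro c m hm
    have h1 : ∀ r : ℕ, 1 ≤ r → ∑ i ∈ range (p + 1), c i * one0 Φ i r = cmb p Φ (fun m => c (m + 1 - 1)) r :=
      fun r hr => MUF_low p Φ (fun m => c (m - 1)) r hr
    rw [h1 m (by omega), Finset.sum_congr rfl (fun i hi => by rw [h1 i (mem_Icc.1 hi).1])]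
    exact hG.ineq _ m hm

end Pool.Agent.GD
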