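import Pool.Agent.helper65.GF.SpecG
import Pool.Agent.helper54.GF.XQM

/-!
Row YUM of the project on Goodman's inequality for Bazilevic functions of type 1/2 (MP_ea335c_an)
-/

set_option autoImplicit false

namespace Pool.Agent.GD

open Finset Metric Filter Topology

theorem YUM_pow (x c : ℂ) (hx : ‖x‖ = 1) (hc : ‖c‖ ≤ 1) (B : ℕ) : ‖x ^ B - c ^ B‖ ≤ B * ‖x - c‖ := by
  induction B with
  | zero => simp
  | succ n ih =>
    have e : x ^ (n + 1) - c ^ (n + 1) = x * (x ^ n - c ^ n) + (x - c) * c ^ n := by ring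
    rw [e]
    refine (norm_add_le _ _).trans ?_
    rw [norm_mul, norm_mul, hx, one_mul, norm_pow]
    have h1 : ‖c‖ ^ n ≤ 1 := pow_le_one₀ (norm_nonneg _) hc
    have h2 : ‖x - c‖ * ‖c‖ ^ n ≤ ‖x - c‖ * 1 := mul_le_mul_of_nonneg_left h1 (norm_nonneg _)
    push_cast
    linarith

/-- `∑ w T_m = (1 - m) u_m`. -/
theorem YUM_mean {N : ℕ} (w : Fin N → ℝ) (x : Fin N → ℂ) (hw1 : ∑ l, w l = 1) (m : ℕ) :
    ∑ l, (w l : ℂ) * gy (ex (-1) (mom w x)) (x l) m = (1 - (m : ℂ)) * ex (-1) (mom w x) m := by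
  have hw : ∑ l, (w l : ℂ) = 1 := by
    rw [← Complex.ofReal_sum, hw1, Complex.ofReal_one]
  cases m with
  | zero =>
    simp only [gy_zero]
    rw [← Finset.sum_mul, hw]
    push_cast
    ring
  | succ n =>
    have h1 := XQM_rec w x (ex (-1) (mom w x)) (-1) (ex_rec (-1) (mom w x)) n
    have h2 : ∑ l, (w l : ℂ) * gy (ex (-1) (mom w x)) (x l) (n + 1) =
        ex (-1) (mom w x) (n + 1) + ∑ l, (w l : ℂ) * (x l * gy (ex (-1) (mom w x)) (x l) n) := by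
      have h3 : ∀ l ∈ (univ : Finset (Fin N)), (w l : ℂ) * gy (ex (-1) (mom w x)) (x l) (n + 1) =
          (w l : ℂ) * ex (-1) (mom w x) (n + 1) + (w l : ℂ) * (x l * gy (ex (-1) (mom w x)) (x l) n) := by
        intro l _
        rw [gy_succ]
        ring
      rw [Finset.sum_congr rfl h3, Finset.sum_add_distrib, ← Finset.sum_mul, hw, one_mul]
    rw [h2]
    linear_combination h1

/-- the deviation term -/
theorem YUM_dev {N : ℕ} (w : Fin N → ℝ) (x : Fin N → ℂ) (hA : Atomic N w x) (T : Fin N → ℂ)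
    (hT : ∑ l, w l * ‖T l‖ ^ 2 ≤ 1 - ‖mom w x 1‖ ^ 2) (B : ℕ) :
    ‖∑ l, (w l : ℂ) * ((x l ^ B - mom w x 1 ^ B) * T l)‖ ≤ B * (1 - ‖mom w x 1‖ ^ 2) := by
  have hvar := XQM_var w x hA
  obtain ⟨hw0, hw1, hx⟩ := hA
  have hD0 : 0 ≤ 1 - ‖mom w x 1‖ ^ 2 := by
    rw [← hvar]
    exact Finset.sum_nonneg fun l _ => mul_nonneg (hw0 l) (sq_nonneg _)
  have hb1 : ‖mom w x 1‖ ≤ 1 := by
    by_contra hcon
    have h1 : 1 < ‖mom w x 1‖ := not_le.1 hcon
    nlinarith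
  have h1 : ‖∑ l, (w l : ℂ) * ((x l ^ B - mom w x 1 ^ B) * T l)‖ ≤
      ∑ l, (B : ℝ) * ((w l * ‖x l - mom w x 1‖ ^ 2 + w l * ‖T l‖ ^ 2) / 2) := by
    refine (norm_sum_le _ _).trans (Finset.sum_le_sum fun l _ => ?_)
    rw [norm_mul, norm_mul, Complex.norm_real, Real.norm_of_nonneg (hw0 l)]
    have h2 := YUM_pow (x l) (mom w x 1) (hx l) hb1 B
    have h3 : ‖x l ^ B - mom w x 1 ^ B‖ * ‖T l‖ ≤ B * ‖x l - mom w x 1‖ * ‖T l‖ :=
      mul_le_mul_of_nonneg_right h2 (norm_nonneg _)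
    have h4 : ‖x l - mom w x 1‖ * ‖T l‖ ≤ (‖x l - mom w x 1‖ ^ 2 + ‖T l‖ ^ 2) / 2 := by
      nlinarith [sq_nonneg (‖x l - mom w x 1‖ - ‖T l‖)]
    have h5 : (B : ℝ) * ‖x l - mom w x 1‖ * ‖T l‖ ≤ B * ((‖x l - mom w x 1‖ ^ 2 + ‖T l‖ ^ 2) / 2) := by
      rw [mul_assoc]
      exact mul_le_mul_of_nonneg_left h4 (Nat.cast_nonneg B)
    calc w l * (‖x l ^ B - mom w x 1 ^ B‖ * ‖T l‖)
        ≤ w l * (B * ((‖x l - mom w x 1‖ ^ 2 + ‖T l‖ ^ 2) / 2)) :=
          mul_le_mul_of_nonneg_left (h3.trans h5) (hw0 l)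
      _ = _ := by ring
  refine h1.trans ?_
  rw [← Finset.mul_sum, ← Finset.sum_div, Finset.sum_add_distrib, hvar]
  refine mul_le_mul_of_nonneg_left ?_ (Nat.cast_nonneg B)
  linarith

theorem YUM (hYUB : YUB_stmt) : YUM_stmt := by
  intro N w x m hA hm
  have hA2 := hA
  have hvar := XQM_var w x hA2
  obtain ⟨hw0, hw1, hx⟩ := hA
  have hD0 : 0 ≤ 1 - ‖mom w x 1‖ ^ 2 := by
    rw [← hvar]
    exact Finset.sum_nonneg fun l _ => mul_nonneg (hw0 l) (sq_nonneg _)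
  have hb1 : ‖mom w x 1‖ ≤ 1 := by
    by_contra hcon
    have h1 : 1 < ‖mom w x 1‖ := not_le.1 hcon
    nlinarith
  -- part 1
  have hu : ∀ n : ℕ, 2 ≤ n → ‖ex (-1) (mom w x) n‖ ≤ (1 - ‖mom w x 1‖ ^ 2) / 2 := by
    intro n hn
    induction n, hn using Nat.le_induction with
    | base =>
      have h1 := XQM_rec w x (ex (-1) (mom w x)) (-1) (ex_rec (-1) (mom w x)) 1
      have h2 := YUM_mean w x hw1 1
      have h3 := YUM_dev w x hA2 (fun l => gy (ex (-1) (mom w x)) (x l) 1) (hYUB N w x 1 hA2 (le_refl 1)) 1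
      have h4 : ((1 + 1 : ℕ) : ℂ) * ex (-1) (mom w x) (1 + 1) =
          -∑ l, (w l : ℂ) * ((x l ^ 1 - mom w x 1 ^ 1) * gy (ex (-1) (mom w x)) (x l) 1) := by
        have h5 : ∑ l, (w l : ℂ) * ((x l ^ 1 - mom w x 1 ^ 1) * gy (ex (-1) (mom w x)) (x l) 1) =
            ∑ l, (w l : ℂ) * (x l * gy (ex (-1) (mom w x)) (x l) 1) -
              mom w x 1 * ∑ l, (w l : ℂ) * gy (ex (-1) (mom w x)) (x l) 1 := by
          rw [Finset.mul_sum, ← Finset.sum_sub_distrib]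
          refine Finset.sum_congr rfl fun l _ => ?_
          ring
        rw [h5, h1, h2]
        push_cast
        ring
      have h6 : ‖((1 + 1 : ℕ) : ℂ) * ex (-1) (mom w x) (1 + 1)‖ ≤ ((1 : ℕ) : ℝ) * (1 - ‖mom w x 1‖ ^ 2) := by
        rw [h4, norm_neg]
        exact h3
      rw [norm_mul, Complex.norm_natCast] at h6
      push_cast at h6
      linarith
    | succ n hn ih =>
      have h1 := XQM_rec w x (ex (-1) (mom w x)) (-1) (ex_rec (-1) (mom w x)) n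
      have h2 := YUM_mean w x hw1 n
      have h3 := YUM_dev w x hA2 (fun l => gy (ex (-1) (mom w x)) (x l) n) (hYUB N w x n hA2 (by omega)) 1
      have h4 : ((n + 1 : ℕ) : ℂ) * ex (-1) (mom w x) (n + 1) =
          -(∑ l, (w l : ℂ) * ((x l ^ 1 - mom w x 1 ^ 1) * gy (ex (-1) (mom w x)) (x l) n)) -
            mom w x 1 * ((1 - (n : ℂ)) * ex (-1) (mom w x) n) := by
        have h5 : ∑ l, (w l : ℂ) * ((x l ^ 1 - mom w x 1 ^ 1) * gy (ex (-1) (mom w x)) (x l) n) =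
            ∑ l, (w l : ℂ) * (x l * gy (ex (-1) (mom w x)) (x l) n) -
              mom w x 1 * ∑ l, (w l : ℂ) * gy (ex (-1) (mom w x)) (x l) n := by
          rw [Finset.mul_sum, ← Finset.sum_sub_distrib]
          refine Finset.sum_congr rfl fun l _ => ?_
          ring
        rw [h5, h1, h2]
        ring
      have h6 : ‖((n + 1 : ℕ) : ℂ) * ex (-1) (mom w x) (n + 1)‖ ≤
          ((1 : ℕ) : ℝ) * (1 - ‖mom w x 1‖ ^ 2) + 1 * (((n : ℝ) - 1) * ((1 - ‖mom w x 1‖ ^ 2) / 2)) := by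
        rw [h4]
        refine (norm_sub_le _ _).trans ?_
        rw [norm_neg]
        refine add_le_add h3 ?_
        rw [norm_mul, norm_mul]
        have hn1 : (2 : ℝ) ≤ n := by exact_mod_cast hn
        have h7 : ‖(1 : ℂ) - (n : ℂ)‖ = (n : ℝ) - 1 := by
          have h8 : (1 : ℂ) - (n : ℂ) = ((1 - (n : ℝ) : ℝ) : ℂ) := by push_cast; ring
          rw [h8, Complex.norm_real, Real.norm_eq_abs, abs_of_nonpos (by linarith)]
          ring
        rw [h7]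
        refine mul_le_mul hb1 ?_ (mul_nonneg (by linarith) (norm_nonneg _)) (by norm_num)
        · exact mul_le_mul_of_nonneg_left ih (by linarith)
      rw [norm_mul, Complex.norm_natCast] at h6
      push_cast at h6
      have hn1 : (2 : ℝ) ≤ n := by exact_mod_cast hn
      have h9 : ((n : ℝ) + 1) * ‖ex (-1) (mom w x) (n + 1)‖ ≤ ((n : ℝ) + 1) * ((1 - ‖mom w x 1‖ ^ 2) / 2) := by
        linarith
      exact le_of_mul_le_mul_left h9 (by linarith)
  refine ⟨fun h2 => hu m h2, ?_⟩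
  intro B
  have h2 := YUM_mean w x hw1 m
  have h3 := YUM_dev w x hA2 (fun l => gy (ex (-1) (mom w x)) (x l) m) (hYUB N w x m hA2 hm) B
  have h4 : ∑ l, (w l : ℂ) * (x l ^ B * gy (ex (-1) (mom w x)) (x l) m) =
      ∑ l, (w l : ℂ) * ((x l ^ B - mom w x 1 ^ B) * gy (ex (-1) (mom w x)) (x l) m) +
        mom w x 1 ^ B * ((1 - (m : ℂ)) * ex (-1) (mom w x) m) := by
    rw [← h2, Finset.mul_sum, ← Finset.sum_add_distrib]
    refine Finset.sum_congr rfl fun l _ => ?_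
    ring
  rw [h4]
  refine (norm_add_le _ _).trans ?_
  have hm1 : (1 : ℝ) ≤ m := by exact_mod_cast hm
  have h5 : ‖mom w x 1 ^ B * ((1 - (m : ℂ)) * ex (-1) (mom w x) m)‖ ≤
      1 * (((m : ℝ) - 1) * ((1 - ‖mom w x 1‖ ^ 2) / 2)) := by
    rw [norm_mul, norm_mul, norm_pow]
    have h7 : ‖(1 : ℂ) - (m : ℂ)‖ = (m : ℝ) - 1 := by
      have h8 : (1 : ℂ) - (m : ℂ) = ((1 - (m : ℝ) : ℝ) : ℂ) := by push_cast; ring
      rw [h8, Complex.norm_real, Real.norm_eq_abs, abs_of_nonpos (by linarith)]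
      ring
    rw [h7]
    refine mul_le_mul (pow_le_one₀ (norm_nonneg _) hb1) ?_ (mul_nonneg (by linarith) (norm_nonneg _)) (by norm_num)
    rcases Nat.lt_or_ge m 2 with hlt | hge
    · have hm2 : (m : ℝ) = 1 := by
        have : m = 1 := by omega
        exact_mod_cast this
      rw [hm2]
      simp
    · exact mul_le_mul_of_nonneg_left (hu m hge) (by linarith)
  have h6 : (B : ℝ) * (1 - ‖mom w x 1‖ ^ 2) + 1 * (((m : ℝ) - 1) * ((1 - ‖mom w x 1‖ ^ 2) / 2)) =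
      (1 - ‖mom w x 1‖ ^ 2) * (B + ((m : ℝ) - 1) / 2) := by ring
  rw [← h6]
  exact add_le_add h3 h5

end Pool.Agent.GD
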